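import Pool.Agent.Y315.NL.Stm

set_option autoImplicit false

open MeasureTheory Set Filter Topology
open scoped ContDiff

noncomputable section

namespace Pool.Agent.Y500.NL

open Pool.Agent.Y315.NL

variable {F G : ℝ × ℝ → ℝ}

theorem cdx (h : ContDiff ℝ ∞ F) : ContDiff ℝ ∞ (dx F) := by
  unfold dx
  exact (h.fderiv_right (m := ∞) (by simp)).clm_apply contDiff_const

theorem cdy (h : ContDiff ℝ ∞ F) : ContDiff ℝ ∞ (dy F) := by
  unfold dy
  exact (h.fderiv_right (m := ∞) (by simp)).clm_apply contDiff_const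

theorem df (h : ContDiff ℝ ∞ F) : Differentiable ℝ F := h.differentiable (by simp)

theorem hdx (h : Differentiable ℝ F) (x y : ℝ) :
    HasDerivAt (fun t => F (t, y)) (dx F (x, y)) x := by
  have h1 : HasFDerivAt F (fderiv ℝ F (x, y)) (x, y) := (h _).hasFDerivAt
  have h2 : HasDerivAt (fun t : ℝ => (t, y)) ((1 : ℝ), (0 : ℝ)) x :=
    (hasDerivAt_id x).prodMk (hasDerivAt_const x y)
  exact h1.comp_hasDerivAt x h2

theorem hdy (h : Differentiable ℝ F) (x y : ℝ) :
    HasDerivAt (fun t => F (x, t)) (dy F (x, y)) y := by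
  have h1 : HasFDerivAt F (fderiv ℝ F (x, y)) (x, y) := (h _).hasFDerivAt
  have h2 : HasDerivAt (fun t : ℝ => (x, t)) ((0 : ℝ), (1 : ℝ)) y :=
    (hasDerivAt_const y x).prodMk (hasDerivAt_id y)
  exact h1.comp_hasDerivAt y h2

theorem dx_add (hF : Differentiable ℝ F) (hG : Differentiable ℝ G) :
    dx (fun p => F p + G p) = fun p => dx F p + dx G p := by
  funext p
  obtain ⟨x, y⟩ := p
  exact (hdx (hF.add hG) x y).unique ((hdx hF x y).add (hdx hG x y))

theorem dy_add (hF : Differentiable ℝ F) (hG : Differentiable ℝ G) :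
    dy (fun p => F p + G p) = fun p => dy F p + dy G p := by
  funext p
  obtain ⟨x, y⟩ := p
  exact (hdy (hF.add hG) x y).unique ((hdy hF x y).add (hdy hG x y))

theorem dx_smul (c : ℝ) (hF : Differentiable ℝ F) :
    dx (fun p => c * F p) = fun p => c * dx F p := by
  funext p
  obtain ⟨x, y⟩ := p
  exact (hdx (hF.const_mul c) x y).unique ((hdx hF x y).const_mul c)

theorem dy_smul (c : ℝ) (hF : Differentiable ℝ F) :
    dy (fun p => c * F p) = fun p => c * dy F p := by
  funext p
  obtain ⟨x, y⟩ := p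
  exact (hdy (hF.const_mul c) x y).unique ((hdy hF x y).const_mul c)

theorem cfst {q : ℝ → ℝ} (hq : ContDiff ℝ ∞ q) (hF : ContDiff ℝ ∞ F) :
    ContDiff ℝ ∞ (fun p : ℝ × ℝ => q p.1 * F p) := (hq.comp contDiff_fst).mul hF

theorem csnd {q : ℝ → ℝ} (hq : ContDiff ℝ ∞ q) (hF : ContDiff ℝ ∞ F) :
    ContDiff ℝ ∞ (fun p : ℝ × ℝ => q p.2 * F p) := (hq.comp contDiff_snd).mul hF

theorem dy_q {q : ℝ → ℝ} (hq : ContDiff ℝ ∞ q) (hF : ContDiff ℝ ∞ F) :
    dy (fun p => q p.1 * F p) = fun p => q p.1 * dy F p := by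
  funext p
  obtain ⟨x, y⟩ := p
  exact (hdy (df (cfst hq hF)) x y).unique ((hdy (df hF) x y).const_mul (q x))

theorem dx_r {q : ℝ → ℝ} (hq : ContDiff ℝ ∞ q) (hF : ContDiff ℝ ∞ F) :
    dx (fun p => q p.2 * F p) = fun p => q p.2 * dx F p := by
  funext p
  obtain ⟨x, y⟩ := p
  exact (hdx (df (csnd hq hF)) x y).unique ((hdx (df hF) x y).const_mul (q y))

theorem dxdy (hF : ContDiff ℝ ∞ F) : dx (dy F) = dy (dx F) := by
  funext p
  have hd : DifferentiableAt ℝ (fderiv ℝ F) p :=
    ((hF.fderiv_right (m := ∞) (by simp)).differentiable (by simp)) p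
  have h1 : ∀ v w : ℝ × ℝ, fderiv ℝ (fun p => fderiv ℝ F p v) p w
      = fderiv ℝ (fderiv ℝ F) p w v := by
    intro v w
    rw [fderiv_clm_apply hd (differentiableAt_const v)]
    simp
  have h2 : IsSymmSndFDerivAt ℝ F p := (hF.contDiffAt).isSymmSndFDerivAt (by
    simp only [minSmoothness_of_isRCLikeNormedField]
    exact WithTop.coe_le_coe.2 (le_top : (2 : ℕ∞) ≤ ⊤))
  unfold dx dy
  rw [h1, h1]
  exact h2 _ _

theorem per_dx {a b : ℝ} (hF : Differentiable ℝ F)
    (h : ∀ x y, F (x + a, y + b) = F (x, y)) (x y : ℝ) :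
    dx F (x + a, y + b) = dx F (x, y) := by
  have h1 := hdx hF (x + a) (y + b)
  have h2 : HasDerivAt (fun t => F (t + a, y + b)) (dx F (x + a, y + b)) x := by
    have h3 : HasDerivAt (fun t : ℝ => t + a) 1 x := (hasDerivAt_id x).add_const a
    have := h1.comp x h3
    rw [mul_one] at this
    exact this
  have h4 : (fun t => F (t + a, y + b)) = fun t => F (t, y) := by
    funext t; exact h t y
  rw [h4] at h2
  exact h2.unique (hdx hF x y)

theorem per_dy {a b : ℝ} (hF : Differentiable ℝ F)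
    (h : ∀ x y, F (x + a, y + b) = F (x, y)) (x y : ℝ) :
    dy F (x + a, y + b) = dy F (x, y) := by
  have h1 := hdy hF (x + a) (y + b)
  have h2 : HasDerivAt (fun t => F (x + a, t + b)) (dy F (x + a, y + b)) y := by
    have h3 : HasDerivAt (fun t : ℝ => t + b) 1 y := (hasDerivAt_id y).add_const b
    have := h1.comp y h3
    rw [mul_one] at this
    exact this
  have h4 : (fun t => F (x + a, t + b)) = fun t => F (x, t) := by
    funext t; exact h x t
  rw [h4] at h2
  exact h2.unique (hdy hF x y)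

/-- the abstract spectral theorem -/
theorem spec {E : Type*} [AddCommGroup E] [Module ℝ E] [FiniteDimensional ℝ E]
    (b : E → E → ℝ) (hsymm : ∀ x y, b x y = b y x) (hadd : ∀ x y z, b (x + y) z = b x z + b y z)
    (hsmul : ∀ (c : ℝ) x y, b (c • x) y = c * b x y) (hpos : ∀ x, 0 ≤ b x x)
    (hdef : ∀ x, b x x = 0 → x = 0) (T : E →ₗ[ℝ] E) (hT : ∀ x y, b (T x) y = b x (T y)) :
    ⨆ μ, Module.End.eigenspace T μ = ⊤ := by
  let cd : InnerProductSpace.Core ℝ E :=
    { inner := b
      conj_inner_symm := fun x y => by simpa using hsymm y x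
      re_inner_nonneg := fun x => by simpa using hpos x
      add_left := hadd
      smul_left := fun x y c => by simpa using hsmul c x y
      definite := hdef }
  let _ : NormedAddCommGroup E := cd.toNormedAddCommGroup
  let _ : InnerProductSpace ℝ E := InnerProductSpace.ofCore cd.toCore
  have hs : LinearMap.IsSymmetric T := hT
  have h1 := hs.orthogonalComplement_iSup_eigenspaces_eq_bot
  exact Submodule.orthogonal_eq_bot_iff.1 h1

/-- integral over a rectangle -/
def II (a b c d : ℝ) (F : ℝ × ℝ → ℝ) : ℝ := ∫ y in c..d, ∫ x in a..b, F (x, y)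

theorem cin (a b : ℝ) (hF : Continuous F) : Continuous (fun y => ∫ x in a..b, F (x, y)) := by
  refine intervalIntegral.continuous_parametric_intervalIntegral_of_continuous'
    (f := fun y x => F (x, y)) ?_ a b
  exact hF.comp (continuous_snd.prodMk continuous_fst)

theorem II_add (a b c d : ℝ) (hF : Continuous F) (hG : Continuous G) :
    II a b c d (fun p => F p + G p) = II a b c d F + II a b c d G := by
  unfold II
  rw [← intervalIntegral.integral_add ((cin a b hF).intervalIntegrable _ _)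
    ((cin a b hG).intervalIntegrable _ _)]
  refine intervalIntegral.integral_congr fun y _ => ?_
  exact intervalIntegral.integral_add
    ((hF.comp (by fun_prop : Continuous fun x : ℝ => (x, y))).intervalIntegrable _ _)
    ((hG.comp (by fun_prop : Continuous fun x : ℝ => (x, y))).intervalIntegrable _ _)

theorem II_smul (a b c d e : ℝ) :
    II a b c d (fun p => e * F p) = e * II a b c d F := by
  unfold II
  rw [← intervalIntegral.integral_const_mul]
  refine intervalIntegral.integral_congr fun y _ => ?_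
  exact intervalIntegral.integral_const_mul _ _

theorem red {L P : ℝ} (hL : 0 < L) (hP : 0 < P) (h1 : ∀ x y, F (x + L, y) = F (x, y))
    (h2 : ∀ x y, F (x, y + P) = F (x, y)) (x y : ℝ) :
    ∃ x' ∈ Icc 0 L, ∃ y' ∈ Icc 0 P, F (x, y) = F (x', y') := by
  have p1 : Function.Periodic (fun t => F (t, y)) L := fun t => h1 t y
  obtain ⟨x', hx', e1⟩ := p1.exists_mem_Ico₀ hL x
  have p2 : Function.Periodic (fun t => F (x', t)) P := fun t => h2 x' t
  obtain ⟨y', hy', e2⟩ := p2.exists_mem_Ico₀ hP y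
  exact ⟨x', Ico_subset_Icc_self hx', y', Ico_subset_Icc_self hy', e1.trans e2⟩

theorem II_nonneg {L P : ℝ} (hL : 0 < L) (hP : 0 < P) (h : ∀ p, 0 ≤ F p) : 0 ≤ II 0 L 0 P F := by
  unfold II
  exact intervalIntegral.integral_nonneg hP.le fun y _ =>
    intervalIntegral.integral_nonneg hL.le fun x _ => h _

theorem II_def {L P : ℝ} (hL : 0 < L) (hP : 0 < P) (hF : Continuous F)
    (h1 : ∀ x y, F (x + L, y) = F (x, y)) (h2 : ∀ x y, F (x, y + P) = F (x, y))
    (h : II 0 L 0 P (fun p => F p * F p) = 0) : F = fun _ => 0 := by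
  by_contra hne
  have : ∃ p, F p ≠ 0 := by
    by_contra hcon
    push Not at hcon
    exact hne (funext hcon)
  obtain ⟨⟨x, y⟩, hp⟩ := this
  obtain ⟨x', hx', y', hy', e⟩ := red hL hP h1 h2 x y
  rw [e] at hp
  have hc : Continuous (fun p => F p * F p) := hF.mul hF
  have h3 : 0 < ∫ x in (0 : ℝ)..L, F (x, y') * F (x, y') :=
    intervalIntegral.integral_pos hL
      (hc.comp (by fun_prop : Continuous fun x : ℝ => (x, y'))).continuousOn
      (fun x _ => mul_self_nonneg _) ⟨x', hx', mul_self_pos.2 hp⟩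
  have h4 : 0 < II 0 L 0 P (fun p => F p * F p) :=
    intervalIntegral.integral_pos hP (cin 0 L hc).continuousOn
      (fun y _ => intervalIntegral.integral_nonneg hL.le fun x _ => mul_self_nonneg _)
      ⟨y', hy', h3⟩
  exact absurd h h4.ne'

theorem sym_line {L : ℝ} {q : ℝ → ℝ} (hq : Continuous q)
    (hF : ContDiff ℝ ∞ F) (hG : ContDiff ℝ ∞ G)
    (h1 : ∀ x y, F (x + L, y) = F (x, y)) (h2 : ∀ x y, G (x + L, y) = G (x, y)) (y : ℝ) :
    ∫ x in (0 : ℝ)..L, (dx (dx F) (x, y) + q x * F (x, y)) * G (x, y) =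
      ∫ x in (0 : ℝ)..L, F (x, y) * (dx (dx G) (x, y) + q x * G (x, y)) := by
  have hl : Continuous fun x : ℝ => (x, y) := by fun_prop
  have c0 : Continuous fun x => F (x, y) := hF.continuous.comp hl
  have c1 : Continuous fun x => dx (dx F) (x, y) := (cdx (cdx hF)).continuous.comp hl
  have d0 : Continuous fun x => G (x, y) := hG.continuous.comp hl
  have d1 : Continuous fun x => dx (dx G) (x, y) := (cdx (cdx hG)).continuous.comp hl
  rw [← sub_eq_zero, ← intervalIntegral.integral_sub]
  · have h3 : ∀ x, HasDerivAt (fun x => dx F (x, y) * G (x, y) - F (x, y) * dx G (x, y))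
        ((dx (dx F) (x, y) + q x * F (x, y)) * G (x, y) -
          F (x, y) * (dx (dx G) (x, y) + q x * G (x, y))) x := by
      intro x
      have := ((hdx (df (cdx hF)) x y).mul (hdx (df hG) x y)).sub
        ((hdx (df hF) x y).mul (hdx (df (cdx hG)) x y))
      refine this.congr_deriv ?_
      ring
    rw [intervalIntegral.integral_eq_sub_of_hasDerivAt (fun x _ => h3 x)]
    · have e1 : dx F (0 + L, y + 0) = dx F (0, y) :=
        per_dx (df hF) (fun x y => by rw [add_zero]; exact h1 x y) 0 y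
      have e2 : dx G (0 + L, y + 0) = dx G (0, y) :=
        per_dx (df hG) (fun x y => by rw [add_zero]; exact h2 x y) 0 y
      have e3 := h1 0 y
      have e4 := h2 0 y
      rw [zero_add] at e1 e2 e3 e4
      rw [add_zero] at e1 e2
      rw [e1, e2, e3, e4, sub_self]
    · refine Continuous.intervalIntegrable ?_ _ _
      fun_prop
  · refine Continuous.intervalIntegrable ?_ _ _
    fun_prop
  · refine Continuous.intervalIntegrable ?_ _ _
    fun_prop

theorem bdd {L : ℝ} (hL : 0 < L) {q : ℝ → ℝ} (hq : Continuous q) (h : ∀ x, q (x + L) = q x) :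
    ∃ C, ∀ x, q x ≤ C := by
  obtain ⟨C, hC⟩ := (isCompact_Icc (a := (0 : ℝ)) (b := L)).bddAbove_image hq.continuousOn
  refine ⟨C, fun x => ?_⟩
  have p1 : Function.Periodic q L := h
  obtain ⟨x', hx', e1⟩ := p1.exists_mem_Ico₀ hL x
  rw [e1]
  exact hC ⟨x', Ico_subset_Icc_self hx', rfl⟩

section main

variable (L P : ℝ) (q r : ℝ → ℝ)

/-- the space of solutions -/
def EE : Submodule ℝ (ℝ × ℝ → ℝ) where
  carrier := {F | Sol L P q r F}
  add_mem' := by
    rintro F G ⟨a1, a2, a3, a4⟩ ⟨b1, b2, b3, b4⟩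
    refine ⟨a1.add b1, fun x y => ?_, fun x y => ?_, fun x y => ?_⟩
    · simp only [Pi.add_apply, a2, b2]
    · simp only [Pi.add_apply, a3, b3]
    · have e1 : dx (F + G) = fun p => dx F p + dx G p := dx_add (df a1) (df b1)
      have e2 : dy (F + G) = fun p => dy F p + dy G p := dy_add (df a1) (df b1)
      rw [e1, e2, dx_add (df (cdx a1)) (df (cdx b1)), dy_add (df (cdy a1)) (df (cdy b1))]
      have := a4 x y
      have := b4 x y
      simp only [Pi.add_apply]
      linarith
  zero_mem' := by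
    refine ⟨contDiff_const, fun x y => rfl, fun x y => rfl, fun x y => ?_⟩
    have e1 : dx (0 : ℝ × ℝ → ℝ) = fun _ => 0 := by
      funext p
      have : (0 : ℝ × ℝ → ℝ) = fun _ => (0 : ℝ) := rfl
      unfold dx
      rw [this, fderiv_fun_const]
      simp
    have e2 : dy (0 : ℝ × ℝ → ℝ) = fun _ => 0 := by
      funext p
      have : (0 : ℝ × ℝ → ℝ) = fun _ => (0 : ℝ) := rfl
      unfold dy
      rw [this, fderiv_fun_const]
      simp
    have e3 : (fun _ : ℝ × ℝ => (0 : ℝ)) = 0 := rfl
    rw [e1, e2, e3, e1, e2]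
    simp
  smul_mem' := by
    rintro c F ⟨a1, a2, a3, a4⟩
    have e0 : (c • F) = fun p => c * F p := rfl
    rw [e0]
    refine ⟨contDiff_const.mul a1, fun x y => ?_, fun x y => ?_, fun x y => ?_⟩
    · simp only [a2]
    · simp only [a3]
    · rw [dx_smul c (df a1), dy_smul c (df a1), dx_smul c (df (cdx a1)), dy_smul c (df (cdy a1))]
      have := a4 x y
      linear_combination c * this

variable {L P q r}

theorem solT (hq : ContDiff ℝ ∞ q) (hr : ContDiff ℝ ∞ r)
    (pq : ∀ x, q (x + L) = q x) (h : Sol L P q r F) :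
    Sol L P q r (fun p => dx (dx F) p + q p.1 * F p) := by
  obtain ⟨a1, a2, a3, a4⟩ := h
  have c1 := cdx (cdx a1)
  have c2 := cfst hq a1
  refine ⟨c1.add c2, fun x y => ?_, fun x y => ?_, fun x y => ?_⟩
  · have e1 : ∀ x y, dx F (x + L, y + 0) = dx F (x, y) :=
      per_dx (df a1) (fun x y => by rw [add_zero]; exact a2 x y)
    have e2 := per_dx (df (cdx a1)) e1 x y
    rw [add_zero] at e2
    simp only [e2, pq, a2]
  · have e1 : ∀ x y, dx F (x + 0, y + P) = dx F (x, y) :=
      per_dx (df a1) (fun x y => by rw [add_zero]; exact a3 x y)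
    have e2 := per_dx (df (cdx a1)) e1 x y
    rw [add_zero] at e2
    simp only [e2, a3]
  · -- the equation as an identity of functions
    have key : dx (dx F) = fun p => (-1) * ((dy (dy F) p + q p.1 * F p) + r p.2 * F p) := by
      funext p
      obtain ⟨u, v⟩ := p
      have := a4 u v
      simp only
      linarith
    have cyy := cdy (cdy a1)
    have c3 := csnd hr a1
    have f1 : dx (dx (dx (dx F))) = fun p => (-1) * ((dx (dx (dy (dy F))) p +
        dx (dx (fun p => q p.1 * F p)) p) + r p.2 * dx (dx F) p) := by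
      conv_lhs => rw [key]
      rw [dx_smul _ (df ((cyy.add c2).add c3)), dx_smul _ (df (cdx ((cyy.add c2).add c3))),
        dx_add (df (cyy.add c2)) (df c3), dx_add (df (cdx (cyy.add c2))) (df (cdx c3)),
        dx_add (df cyy) (df c2), dx_add (df (cdx cyy)) (df (cdx c2)), dx_r hr a1,
        dx_r hr (cdx a1)]
    have f2 : dx (dx (dy (dy F))) = dy (dy (dx (dx F))) := by
      rw [dxdy (cdy a1), dxdy a1, dxdy (cdy (cdx a1)), dxdy (cdx a1)]
    rw [dx_add (df c1) (df c2), dx_add (df (cdx c1)) (df (cdx c2)), dy_add (df c1) (df c2),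
      dy_add (df (cdy c1)) (df (cdy c2)), dy_q hq a1, dy_q hq (cdy a1), f1, f2]
    have := a4 x y
    simp only
    linear_combination q x * this

/-- the operator `F ↦ F_xx + q F` -/
def TT (hq : ContDiff ℝ ∞ q) (hr : ContDiff ℝ ∞ r) (pq : ∀ x, q (x + L) = q x) :
    EE L P q r →ₗ[ℝ] EE L P q r where
  toFun F := ⟨fun p => dx (dx F.1) p + q p.1 * F.1 p, solT hq hr pq F.2⟩
  map_add' := by
    rintro ⟨F, hF⟩ ⟨G, hG⟩
    apply Subtype.ext
    change (fun p => dx (dx (fun p => F p + G p)) p + q p.1 * (F p + G p)) = fun p =>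
      (dx (dx F) p + q p.1 * F p) + (dx (dx G) p + q p.1 * G p)
    rw [dx_add (df hF.1) (df hG.1), dx_add (df (cdx hF.1)) (df (cdx hG.1))]
    funext p
    ring
  map_smul' := by
    rintro c ⟨F, hF⟩
    apply Subtype.ext
    change (fun p => dx (dx (fun p => c * F p)) p + q p.1 * (c * F p)) = fun p =>
      c * (dx (dx F) p + q p.1 * F p)
    rw [dx_smul c (df hF.1), dx_smul c (df (cdx hF.1))]
    funext p
    ring

theorem fin_dim (h : S_DIM) (hL : 0 < L) (hP : 0 < P) (hq : ContDiff ℝ ∞ q)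
    (hr : ContDiff ℝ ∞ r) (pq : ∀ x, q (x + L) = q x) (pr : ∀ y, r (y + P) = r y) :
    FiniteDimensional ℝ (EE L P q r) := by
  obtain ⟨C1, hC1⟩ := bdd hL hq.continuous pq
  obtain ⟨C2, hC2⟩ := bdd hP hr.continuous pr
  set K : ℝ := |C1 + C2| + 1 with hK
  have hK1 : 1 ≤ K := by rw [hK]; linarith [abs_nonneg (C1 + C2)]
  have hK2 : ∀ x y, q x + r y ≤ K ^ 2 := by
    intro x y
    have h1 := hC1 x
    have h2 := hC2 y
    have h3 := le_abs_self (C1 + C2)
    nlinarith
  obtain ⟨n, hn⟩ := exists_nat_gt (K * L + K * P)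
  have hKL : 0 < K * L := by positivity
  have hKP : 0 < K * P := by positivity
  let Φ : EE L P q r →ₗ[ℝ] (Fin n → Fin n → ℝ) :=
    { toFun := fun F i j => II ((i : ℝ) * (L / n)) (((i : ℝ) + 1) * (L / n))
        ((j : ℝ) * (P / n)) (((j : ℝ) + 1) * (P / n)) F.1
      map_add' := by
        rintro ⟨F, hF⟩ ⟨G, hG⟩
        funext i j
        exact II_add _ _ _ _ hF.1.continuous hG.1.continuous
      map_smul' := by
        rintro c ⟨F, hF⟩
        funext i j
        exact II_smul _ _ _ _ _ }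
  refine FiniteDimensional.of_injective Φ ?_
  rw [injective_iff_map_eq_zero]
  rintro ⟨F, hF⟩ h0
  apply Subtype.ext
  funext p
  refine h L P K q r hL hP (by linarith) hq.continuous hr.continuous hK2 n (by linarith)
    (by linarith) F hF ?_ p
  intro i hi j hj
  exact congrFun (congrFun h0 ⟨i, hi⟩) ⟨j, hj⟩

end main

/-- every solution is a finite sum of solutions of both ordinary differential equations -/
theorem dec (h : S_DIM) : S_DEC := by
  intro L P q r hL hP hq hr pq pr F hF
  have hfd := fin_dim h hL hP hq hr pq pr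
  have hsp := spec (E := EE L P q r) (fun F G => II 0 L 0 P (fun p => F.1 p * G.1 p))
    (by
      intro F G
      simp only [mul_comm])
    (by
      rintro ⟨F, hF⟩ ⟨G, hG⟩ ⟨H, hH⟩
      have := II_add 0 L 0 P (hF.1.continuous.mul hH.1.continuous)
        (hG.1.continuous.mul hH.1.continuous)
      refine Eq.trans ?_ this
      congr 1
      funext p
      exact add_mul _ _ _)
    (by
      rintro c ⟨F, hF⟩ ⟨G, hG⟩
      have := II_smul (F := fun p => F p * G p) 0 L 0 P c
      rw [← this]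
      congr 1
      funext p
      exact mul_assoc _ _ _)
    (fun F => II_nonneg hL hP fun p => mul_self_nonneg _)
    (by
      rintro ⟨F, hF⟩ h0
      apply Subtype.ext
      exact II_def hL hP hF.1.continuous hF.2.1 hF.2.2.1 h0)
    (TT hq hr pq)
    (by
      rintro ⟨F, hF⟩ ⟨G, hG⟩
      refine intervalIntegral.integral_congr fun y _ => ?_
      exact sym_line hq.continuous hF.1 hG.1 hF.2.1 hG.2.1 y)
  have hm : (⟨F, hF⟩ : EE L P q r) ∈ ⨆ μ, Module.End.eigenspace (TT (P := P) hq hr pq) μ := by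
    rw [hsp]
    trivial
  rw [Submodule.mem_iSup_iff_exists_finsupp] at hm
  obtain ⟨f, hf, hs⟩ := hm
  refine ⟨f.support, fun μ => (f μ).1, fun μ _ => ?_, fun p => ?_⟩
  · have h1 := hf μ
    rw [Module.End.mem_eigenspace_iff] at h1
    have h2 : ∀ x y, dx (dx (f μ).1) (x, y) + q x * (f μ).1 (x, y) = μ * (f μ).1 (x, y) := by
      intro x y
      exact congrFun (congrArg Subtype.val h1) (x, y)
    have h3 := (f μ).2
    refine ⟨h3.1, h3.2.1, h3.2.2.1, fun x y => ?_, fun x y => ?_⟩
    · have := h2 x y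
      linarith
    · have := h2 x y
      have := h3.2.2.2 x y
      linarith
  · have h1 := congrArg (fun G : EE L P q r => G.1 p) hs
    simp only [Finsupp.sum] at h1
    rw [← h1]
    simp

end Pool.Agent.Y500.NL
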