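import Pool.Agent.Y315.NL.Stm2

set_option autoImplicit false

open MeasureTheory Set Filter Topology
open scoped ContDiff ENNReal

noncomputable section

namespace Pool.Agent.Y500.NL

open Pool.Agent.Y315.NL

theorem zeros {w w1 w2 V : ℝ → ℝ} {K : ℝ} {I : Set ℝ} (hI : I.OrdConnected)
    (h1 : ∀ x, HasDerivAt w (w1 x) x) (h2 : ∀ x, HasDerivAt w1 (w2 x) x) (hw2 : Continuous w2)
    (hV : Continuous V) (hK : ∀ x ∈ I, V x < K) (m : ℕ) (S : Finset ℝ) (hS : S.card = m + 2)
    (hz : ∀ t ∈ S, t ∈ I ∧ w t = 0) :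
    ∃ S' : Finset ℝ, S'.card = m ∧ ∀ z ∈ S', z ∈ I ∧ (K - V z) * w z - w2 z = 0 := by
  classical
  obtain ⟨t, ht1, ht2⟩ : ∃ t : ℕ → ℝ, (∀ i < m + 2, t i ∈ S) ∧
      ∀ i j, i < j → j < m + 2 → t i < t j := by
    let e := S.orderEmbOfFin hS
    refine ⟨fun i => if h : i < m + 2 then e ⟨i, h⟩ else 0, fun i hi => ?_, fun i j hij hj => ?_⟩
    · simp only [dif_pos hi]
      exact Finset.orderEmbOfFin_mem S hS _
    · have hi : i < m + 2 := hij.trans hj
      simp only [dif_pos hi, dif_pos hj]
      exact e.strictMono (show (⟨i, hi⟩ : Fin (m + 2)) < ⟨j, hj⟩ from hij)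
  have hsub : ∀ i j, i < m + 2 → j < m + 2 → Icc (t i) (t j) ⊆ I := fun i j hi hj =>
    hI.out (hz _ (ht1 i hi)).1 (hz _ (ht1 j hj)).1
  by_cases hflat : ∃ i, i + 1 < m + 2 ∧ ∀ x ∈ Icc (t i) (t (i + 1)), w x = 0
  · obtain ⟨i, hi, hfl⟩ := hflat
    have hlt : t i < t (i + 1) := ht2 i (i + 1) (Nat.lt_succ_self i) hi
    have hinf : (Ioo (t i) (t (i + 1))).Infinite := Ioo_infinite hlt
    obtain ⟨S', hS', hc⟩ := hinf.exists_subset_card_eq m
    refine ⟨S', hc, fun z hzS => ?_⟩
    have hzI := hS' (Finset.mem_coe.2 hzS)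
    obtain ⟨e1, e2⟩ := flat h1 h2 hfl z hzI
    refine ⟨hsub i (i + 1) (by omega) hi ⟨hzI.1.le, hzI.2.le⟩, ?_⟩
    rw [e1, e2]
    ring
  · push Not at hflat
    have hb : ∀ i, ∃ s, i + 1 < m + 2 →
        s ∈ Ioo (t i) (t (i + 1)) ∧ 0 < w s * ((K - V s) * w s - w2 s) := by
      intro i
      by_cases hi : i + 1 < m + 2
      · have hK' : ∀ x ∈ Icc (t i) (t (i + 1)), V x < K := fun x hx =>
          hK x (hsub i (i + 1) (by omega) hi hx)
        rcases bump h1 h2 hK' (hz _ (ht1 i (by omega))).2 (hz _ (ht1 (i + 1) hi)).2 with h | h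
        · obtain ⟨x, hx, hx2⟩ := hflat i hi
          exact absurd (h x hx) hx2
        · obtain ⟨s, hs, hs2⟩ := h
          exact ⟨s, fun _ => ⟨hs, hs2⟩⟩
      · exact ⟨0, fun h => absurd h hi⟩
    choose s hs using hb
    have hc : ∀ i, ∃ z, i < m → z ∈ Ioo (s i) (s (i + 1)) ∧ (K - V z) * w z - w2 z = 0 := by
      intro i
      by_cases hi : i < m
      · obtain ⟨a1, a2⟩ := hs i (by omega)
        obtain ⟨b1, b2⟩ := hs (i + 1) (by omega)
        have hK' : ∀ x ∈ Icc (s i) (s (i + 1)), V x < K := fun x hx =>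
          hK x (hsub i (i + 1 + 1) (by omega) (by omega)
            ⟨a1.1.le.trans hx.1, hx.2.trans b1.2.le⟩)
        obtain ⟨z, hz1, hz2⟩ := between h1 h2 hw2 hV hK' a1.2 b1.1
          (hz _ (ht1 (i + 1) (by omega))).2 a2 b2
        exact ⟨z, fun _ => ⟨hz1, hz2⟩⟩
      · exact ⟨0, fun h => absurd h hi⟩
    choose z hzz using hc
    have hmono : ∀ i j, i < j → j < m → z i < z j := by
      intro i j hij
      induction j, hij using Nat.le_induction with
      | base =>
        intro hj
        exact (hzz i (by omega)).1.2.trans (hzz (i + 1) hj).1.1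
      | succ j hj ih =>
        intro hj2
        exact (ih (by omega)).trans ((hzz j (by omega)).1.2.trans (hzz (j + 1) hj2).1.1)
    refine ⟨(Finset.range m).image z, ?_, ?_⟩
    · rw [Finset.card_image_of_injOn, Finset.card_range]
      intro i hi j hj hij
      simp only [Finset.coe_range, mem_Iio] at hi hj
      rcases lt_trichotomy i j with h | h | h
      · exact absurd hij (hmono i j h hj).ne
      · exact h
      · exact absurd hij (hmono j i h hi).ne'
    · intro y hy
      rw [Finset.mem_image] at hy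
      obtain ⟨i, hi, rfl⟩ := hy
      rw [Finset.mem_range] at hi
      obtain ⟨c1, c2⟩ := hzz i hi
      obtain ⟨a1, -⟩ := hs i (by omega)
      obtain ⟨b1, -⟩ := hs (i + 1) (by omega)
      exact ⟨hsub i (i + 1 + 1) (by omega) (by omega)
        ⟨(a1.1.trans c1.1).le, (c1.2.trans b1.2).le⟩, c2⟩

theorem tail : S_TAIL := by
  intro V W W1 I s c hV hI hV1 hW hW1 hne hc hs
  -- induction on the number of elements
  obtain ⟨n, hn⟩ : ∃ n, s.card = n + 1 := ⟨s.card - 1, by
    have := Finset.card_pos.2 hs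
    omega⟩
  induction n generalizing s c with
  | zero =>
    intro S hS
    obtain ⟨k, rfl⟩ := Finset.card_eq_one.1 hn
    have : S = ∅ := by
      refine Finset.eq_empty_of_forall_notMem fun t ht => ?_
      obtain ⟨h1, h2⟩ := hS t ht
      rw [Finset.sum_singleton] at h2
      have hk := Finset.mem_singleton_self k
      rcases mul_eq_zero.1 h2 with h3 | h3
      · exact hc k hk h3
      · exact hne k hk t h1 h3
    rw [this]
    simp
  | succ n ih =>
    intro S hS
    by_cases hS2 : S.card < 2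
    · omega
    obtain ⟨m, hm⟩ : ∃ m, S.card = m + 2 := ⟨S.card - 2, by omega⟩
    set k := s.max' hs with hk
    have hks : k ∈ s := Finset.max'_mem s hs
    have hcard : (s.erase k).card = n + 1 := by
      rw [Finset.card_erase_of_mem hks]
      omega
    have hs' : (s.erase k).Nonempty := by
      rw [← Finset.card_pos]
      omega
    have hlt : ∀ j ∈ s.erase k, j < k := by
      intro j hj
      rw [Finset.mem_erase] at hj
      exact lt_of_le_of_ne (Finset.le_max' s j hj.2) hj.1
    have hk1 : 1 ≤ k := by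
      obtain ⟨j, hj⟩ := hs'
      have := hlt j hj
      omega
    have hk2 : (1 : ℝ) ≤ (k : ℝ) ^ 2 := by
      have : (1 : ℝ) ≤ k := by exact_mod_cast hk1
      nlinarith
    have hWc : ∀ j ∈ s, Continuous (W j) := fun j hj =>
      continuous_iff_continuousAt.2 fun x => (hW j hj x).continuousAt
    obtain ⟨S', hS'1, hS'2⟩ := zeros (w := fun x => ∑ j ∈ s, c j * W j x)
      (w1 := fun x => ∑ j ∈ s, c j * W1 j x)
      (w2 := fun x => ∑ j ∈ s, c j * (((j : ℝ) ^ 2 - V x) * W j x)) (K := (k : ℝ) ^ 2) hI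
      (fun x => HasDerivAt.fun_sum fun j hj => (hW j hj x).const_mul (c j))
      (fun x => HasDerivAt.fun_sum fun j hj => (hW1 j hj x).const_mul (c j))
      (continuous_finsetSum _ fun j hj => continuous_const.mul
        ((continuous_const.sub hV).mul (hWc j hj))) hV
      (fun x hx => lt_of_lt_of_le (hV1 x hx) hk2) m S hm (fun t ht => hS t ht)
    have := ih (s := s.erase k) (c := fun j => ((k : ℝ) ^ 2 - (j : ℝ) ^ 2) * c j)
      (fun j hj => hW j (Finset.mem_of_mem_erase hj))
      (fun j hj => hW1 j (Finset.mem_of_mem_erase hj))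
      (fun j hj => hne j (Finset.mem_of_mem_erase hj))
      (by
        intro j hj
        refine mul_ne_zero ?_ (hc j (Finset.mem_of_mem_erase hj))
        have h1 : (j : ℝ) < k := by exact_mod_cast hlt j hj
        have h2 : (0 : ℝ) ≤ j := by positivity
        have : (j : ℝ) ^ 2 < (k : ℝ) ^ 2 := by nlinarith
        exact (sub_pos.2 this).ne') hs' hcard S'
      (by
        intro z hz
        obtain ⟨h1, h2⟩ := hS'2 z hz
        refine ⟨h1, ?_⟩
        rw [← h2, Finset.mul_sum, ← Finset.sum_sub_distrib]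
        rw [← Finset.add_sum_erase s _ hks]
        rw [show (((k : ℝ) ^ 2 - V z) * (c k * W k z) - c k * (((k : ℝ) ^ 2 - V z) * W k z)) = 0
          by ring, zero_add]
        refine Finset.sum_congr rfl fun j _ => ?_
        ring)
    omega

end Pool.Agent.Y500.NL
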