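import Pool.Agent.Y579.NL.Defs

/-!
Two enumerability statements (helper500, project NL of helper579).
-/

namespace Pool.Agent.Y500.NL

open Pool.Agent.Y579.NL Pool.Agent.Results.MP_743c94_lc.Full
open Pool.Agent.Helper446

variable {α : Type*} [Primcodable α]

theorem c_add {f g : α → ℕ} (hf : Computable f) (hg : Computable g) :
    Computable fun a => f a + g a := Primrec.nat_add.to_comp.comp hf hg

theorem c_mul {f g : α → ℕ} (hf : Computable f) (hg : Computable g) :
    Computable fun a => f a * g a := Primrec.nat_mul.to_comp.comp hf hg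

/-- The relation to be projected. -/
def RR (c : ℕ → Bool) (Commit : List Bool → Prop) (L : List Bool)
    (b : List Bool × Bool × ℕ × ℕ) : Prop :=
  Commit b.1 ∧
    (∀ x < b.1.length, ∀ y < b.1.length, b.1[x]? ≠ some true ∨ b.1[y]? ≠ some true ∨ y ≤ x ∨
      c (Nat.pair x y) = b.2.1) ∧
    b.2.2.1 < 3 ∧ b.2.2.2 < 3 ∧ b.2.2.1 ≠ b.2.2.2 ∧
    ∀ x < b.1.length, b.1[x]? ≠ some true ∨
      (L[3 * x + b.2.2.1]? = some b.2.1 ∧ L[3 * x + b.2.2.2]? = some b.2.1)

theorem rr_iff (c : ℕ → Bool) (Commit : List Bool → Prop) (L : List Bool) :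
    (∃ b, RR c Commit L b) ↔ Bad c Commit L := by
  have hlen : ∀ (σ : List Bool) (x : ℕ), σ[x]? = some true → x < σ.length := by
    intro σ x h
    by_contra hcon
    rw [List.getElem?_eq_none (by omega)] at h
    cases h
  constructor
  · rintro ⟨⟨σ, e, j, j'⟩, h1, h2, h3, h4, h5, h6⟩
    refine ⟨σ, e, j, j', h1, ?_, h3, h4, h5, ?_⟩
    · intro x hx y hy hxy
      have hx' : σ[x]? = some true := hx
      have hy' : σ[y]? = some true := hy
      rcases h2 x (hlen σ x hx') y (hlen σ y hy') with h | h | h | h
      · exact absurd hx' h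
      · exact absurd hy' h
      · exact absurd h (by omega)
      · exact h
    · intro x hx
      have hx' : σ[x]? = some true := hx
      rcases h6 x (hlen σ x hx') with h | h
      · exact absurd hx' h
      · exact h
  · rintro ⟨σ, e, j, j', h1, h2, h3, h4, h5, h6⟩
    refine ⟨(σ, e, j, j'), h1, ?_, h3, h4, h5, ?_⟩
    · intro x _ y _
      by_cases hx : σ[x]? = some true
      · by_cases hy : σ[y]? = some true
        · by_cases hxy : x < y
          · exact Or.inr (Or.inr (Or.inr (h2 x hx y hy hxy)))
          · exact Or.inr (Or.inr (Or.inl (by omega)))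
        · exact Or.inr (Or.inl hy)
      · exact Or.inl hx
    · intro x _
      by_cases hx : σ[x]? = some true
      · exact Or.inr (h6 x hx)
      · exact Or.inl hx

theorem t_BADRE : BADRE := by
  intro c Commit hc hCommit
  have key : REPred fun L => ∃ b, RR c Commit L b := by
    refine RE.ex (p := fun L b => RR c Commit L b) ?_
    unfold RR
    have hb : Computable fun x : List Bool × (List Bool × Bool × ℕ × ℕ) => x.2 := Computable.snd
    have hσ : Computable fun x : List Bool × (List Bool × Bool × ℕ × ℕ) => x.2.1 :=
      Computable.fst.comp hb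
    have he : Computable fun x : List Bool × (List Bool × Bool × ℕ × ℕ) => x.2.2.1 :=
      Computable.fst.comp (Computable.snd.comp hb)
    have hj : Computable fun x : List Bool × (List Bool × Bool × ℕ × ℕ) => x.2.2.2.1 :=
      Computable.fst.comp (Computable.snd.comp (Computable.snd.comp hb))
    have hj' : Computable fun x : List Bool × (List Bool × Bool × ℕ × ℕ) => x.2.2.2.2 :=
      Computable.snd.comp (Computable.snd.comp (Computable.snd.comp hb))
    have hlen : Computable fun x : List Bool × (List Bool × Bool × ℕ × ℕ) => x.2.1.length :=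
      Computable.list_length.comp hσ
    refine RE.and (RE.comp hCommit hσ) (RE.and ?_ (RE.and (RE.lt hj (Computable.const 3))
      (RE.and (RE.lt hj' (Computable.const 3)) (RE.and (RE.ne hj hj') ?_))))
    · refine RE.all_lt (p := fun (a : List Bool × (List Bool × Bool × ℕ × ℕ)) x =>
        ∀ y < a.2.1.length, a.2.1[x]? ≠ some true ∨ a.2.1[y]? ≠ some true ∨ y ≤ x ∨
          c (Nat.pair x y) = a.2.2.1) ?_ hlen
      refine RE.all_lt (p := fun (a : (List Bool × (List Bool × Bool × ℕ × ℕ)) × ℕ) y =>
        a.1.2.1[a.2]? ≠ some true ∨ a.1.2.1[y]? ≠ some true ∨ y ≤ a.2 ∨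
          c (Nat.pair a.2 y) = a.1.2.2.1) ?_ (hlen.comp Computable.fst)
      have hx : Computable fun a : ((List Bool × (List Bool × Bool × ℕ × ℕ)) × ℕ) × ℕ => a.1.2 :=
        Computable.snd.comp Computable.fst
      have hy : Computable fun a : ((List Bool × (List Bool × Bool × ℕ × ℕ)) × ℕ) × ℕ => a.2 :=
        Computable.snd
      have hσ2 : Computable fun a : ((List Bool × (List Bool × Bool × ℕ × ℕ)) × ℕ) × ℕ =>
          a.1.1.2.1 := hσ.comp (Computable.fst.comp Computable.fst)
      have he2 : Computable fun a : ((List Bool × (List Bool × Bool × ℕ × ℕ)) × ℕ) × ℕ =>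
          a.1.1.2.2.1 := he.comp (Computable.fst.comp Computable.fst)
      refine RE.or (RE.ne (Computable.list_getElem?.comp hσ2 hx) (Computable.const (some true)))
        (RE.or (RE.ne (Computable.list_getElem?.comp hσ2 hy) (Computable.const (some true)))
          (RE.or (RE.le hy hx) (RE.eq ?_ he2)))
      exact hc.comp (Primrec₂.natPair.to_comp.comp hx hy)
    · refine RE.all_lt (p := fun (a : List Bool × (List Bool × Bool × ℕ × ℕ)) x =>
        a.2.1[x]? ≠ some true ∨ (a.1[3 * x + a.2.2.2.1]? = some a.2.2.1 ∧
          a.1[3 * x + a.2.2.2.2]? = some a.2.2.1)) ?_ hlen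
      have hx : Computable fun a : (List Bool × (List Bool × Bool × ℕ × ℕ)) × ℕ => a.2 :=
        Computable.snd
      have h3x : Computable fun a : (List Bool × (List Bool × Bool × ℕ × ℕ)) × ℕ => 3 * a.2 :=
        c_mul (Computable.const 3) hx
      have hL : Computable fun a : (List Bool × (List Bool × Bool × ℕ × ℕ)) × ℕ => a.1.1 :=
        Computable.fst.comp Computable.fst
      have he1 : Computable fun a : (List Bool × (List Bool × Bool × ℕ × ℕ)) × ℕ =>
          some a.1.2.2.1 := Computable.option_some.comp (he.comp Computable.fst)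
      refine RE.or (RE.ne (Computable.list_getElem?.comp (hσ.comp Computable.fst) hx)
        (Computable.const (some true))) (RE.and (RE.eq ?_ he1) (RE.eq ?_ he1))
      · exact Computable.list_getElem?.comp hL (c_add h3x (hj.comp Computable.fst))
      · exact Computable.list_getElem?.comp hL (c_add h3x (hj'.comp Computable.fst))
  exact key.of_eq fun L => rr_iff c Commit L

/-- The bits of `mix`. -/
def bit' (p : ℕ → Bool) (σ : List Bool) (n : ℕ) : Bool :=
  bif n.bodd then σ.getD n.div2 false else p n.div2

theorem bit'_comp {p : ℕ → Bool} (hp : Computable p) : Computable₂ (bit' p) := by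
  unfold bit'
  refine Computable.cond (c := fun x : List Bool × ℕ => x.2.bodd)
    (Primrec.nat_bodd.to_comp.comp Computable.snd) ?_ ?_
  · exact (Primrec.list_getD false).to_comp.comp Computable.fst
      (Primrec.nat_div2.to_comp.comp Computable.snd)
  · exact hp.comp (Primrec.nat_div2.to_comp.comp Computable.snd)

theorem foldl_map {β γ : Type*} (g : β → γ) (l : List β) (s : List γ) :
    l.foldl (fun acc b => acc ++ [g b]) s = s ++ l.map g := by
  induction l generalizing s with
  | nil => simp
  | cons b l ih => simp [ih]

theorem mix_comp {p : ℕ → Bool} (hp : Computable p) : Computable (mix p) := by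
  have h1 := RE.list_foldl (f := fun σ : List Bool => List.range (2 * σ.length))
    (g := fun _ : List Bool => ([] : List Bool))
    (h := fun (σ : List Bool) (y : List Bool × ℕ) => y.1 ++ [bit' p σ y.2])
    (Primrec.list_range.to_comp.comp (c_mul (Computable.const 2) Computable.list_length))
    (Computable.const []) ?_
  · refine h1.of_eq fun σ => ?_
    rw [foldl_map, List.nil_append]
    unfold mix
    apply List.map_congr_left
    intro n _
    unfold bit'
    rw [Nat.div2_val]
    have h2 : n % 2 = cond n.bodd 1 0 := Nat.mod_two_of_bodd n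
    cases hb : n.bodd
    · rw [hb] at h2
      simp only [cond_false] at h2 ⊢
      rw [if_pos h2]
    · rw [hb] at h2
      simp only [cond_true] at h2 ⊢
      rw [if_neg (by omega)]
  · refine Primrec.list_concat.to_comp.comp (Computable.fst.comp Computable.snd) ?_
    exact (bit'_comp hp).comp Computable.fst (Computable.snd.comp Computable.snd)

theorem t_COMMITRE : COMMITRE := by
  intro Φ N p hΦ hp
  unfold Commit
  refine RE.all_lt (p := fun (σ : List Bool) n => ∃ k < 2 * σ.length + 1,
    (Φ ((mix p σ).take k) (2 * n + 1)).isSome = true) ?_ (Computable.const N)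
  refine RE.exN (p := fun (x : List Bool × ℕ) k => k < 2 * x.1.length + 1 ∧
    (Φ ((mix p x.1).take k) (2 * x.2 + 1)).isSome = true) ?_
  have hσ : Computable fun x : (List Bool × ℕ) × ℕ => x.1.1 := Computable.fst.comp Computable.fst
  refine RE.and (RE.lt Computable.snd ?_) (RE.of_bool ?_)
  · exact c_add (c_mul (Computable.const 2) (Computable.list_length.comp hσ)) (Computable.const 1)
  · refine Primrec.option_isSome.to_comp.comp (hΦ.comp ?_ ?_)
    · exact Primrec.list_take.to_comp.comp Computable.snd ((mix_comp hp).comp hσ)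
    · exact c_add (c_mul (Computable.const 2) (Computable.snd.comp Computable.fst))
        (Computable.const 1)

end Pool.Agent.Y500.NL
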